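import Mathlib

/-!
# MP_75e24b_ag: a squarefree monomial ideal of fiber type whose conductor is not squarefree

Let `I = (x₀x₁, x₀x₂x₃, x₁x₄, x₀x₃x₅, x₂x₄x₅, x₃x₄x₅) ⊂ K[x₀, …, x₅]`.  We show that `I` is of
fiber type, `x₂² ∈ C(I)` and `x₂ ∉ C(I)`.
-/

namespace Pool.Agent.Results.MP_75e24b_ag.NotSquarefree

open MvPolynomial

section Defs

variable {K : Type*} [Field K] {n m : ℕ}

/-- The `R`-algebra map `φ : T = R[y_1, …, y_m] → R[t]`, `y_j ↦ f_j t`, `R = K[x_1, …, x_n]`. -/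
noncomputable def reesMap (F : Fin m → MvPolynomial (Fin n) K) :
    MvPolynomial (Fin m) (MvPolynomial (Fin n) K) →ₐ[MvPolynomial (Fin n) K]
      Polynomial (MvPolynomial (Fin n) K) :=
  MvPolynomial.aeval fun j => Polynomial.C (F j) * Polynomial.X

/-- The ideal `L` of `T` generated by the linear forms `∑ a_i y_i` with `∑ a_i f_i = 0`. -/
noncomputable def linIdeal (F : Fin m → MvPolynomial (Fin n) K) :
    Ideal (MvPolynomial (Fin m) (MvPolynomial (Fin n) K)) :=
  Ideal.span {P | ∃ a : Fin m → MvPolynomial (Fin n) K,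
    ∑ i, a i * F i = 0 ∧ P = ∑ i, C (a i) * X i}

/-- The conductor `C(I) = L :_R J`, `J = ker φ`: the elements `r` of `R` with `r J ⊆ L`. -/
noncomputable def conductor (F : Fin m → MvPolynomial (Fin n) K) :
    Ideal (MvPolynomial (Fin n) K) where
  carrier := {r | ∀ P ∈ RingHom.ker (reesMap F), C r * P ∈ linIdeal F}
  add_mem' := by
    intro a b ha hb P hP
    rw [map_add, add_mul]
    exact add_mem (ha P hP) (hb P hP)
  zero_mem' := by
    intro P _
    rw [map_zero, zero_mul]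
    exact zero_mem _
  smul_mem' := by
    intro c a ha P hP
    rw [smul_eq_mul, map_mul, mul_assoc]
    exact Ideal.mul_mem_left _ _ (ha P hP)

/-- `H = ker φ'`, `φ' : K[y_1, …, y_m] → R[t]`, `y_j ↦ f_j t`. -/
noncomputable def fiberKer (F : Fin m → MvPolynomial (Fin n) K) : Ideal (MvPolynomial (Fin m) K) :=
  RingHom.ker (MvPolynomial.aeval (fun j => Polynomial.C (F j) * Polynomial.X) :
    MvPolynomial (Fin m) K →ₐ[K] Polynomial (MvPolynomial (Fin n) K))

/-- `I = (f_1, …, f_m)` is of fiber type: `J = L + H T`. -/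
def FiberType (F : Fin m → MvPolynomial (Fin n) K) : Prop :=
  RingHom.ker (reesMap F) = linIdeal F ⊔
    (fiberKer F).map (MvPolynomial.map (algebraMap K (MvPolynomial (Fin n) K)))

/-- `f` is a squarefree monomial. -/
def IsSquarefreeMonomial (f : MvPolynomial (Fin n) K) : Prop :=
  ∃ e : Fin n →₀ ℕ, (∀ i, e i ≤ 1) ∧ f = monomial e 1

end Defs

section Normal

variable {K : Type*} [Field K] {n m : ℕ}

/-- exponents of monomials of `T` -/
abbrev Mon (n m : ℕ) := (Fin n →₀ ℕ) × (Fin m →₀ ℕ)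

variable (K) in
/-- the monomials of `T` -/
noncomputable def mono (p : Mon n m) : MvPolynomial (Fin m) (MvPolynomial (Fin n) K) :=
  monomial p.2 (monomial p.1 1)

lemma mono_add (p q : Mon n m) : mono K (p + q) = mono K p * mono K q := by
  simp [mono, monomial_mul]

/-- the exponent of the image of a monomial -/
noncomputable def img (e : Fin m → (Fin n →₀ ℕ)) (p : Mon n m) : (Fin n →₀ ℕ) × ℕ :=
  (p.1 + ∑ j, p.2 j • e j, ∑ j, p.2 j)

lemma reesMap_mono (e : Fin m → (Fin n →₀ ℕ)) (p : Mon n m) :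
    reesMap (fun j => monomial (e j) (1 : K)) (mono K p)
      = Polynomial.monomial (img e p).2 (monomial (img e p).1 1) := by
  rw [mono, reesMap, aeval_monomial, Finsupp.prod_fintype _ _ (by simp)]
  have h : ∀ j, (Polynomial.C (monomial (e j) (1 : K)) * Polynomial.X) ^ p.2 j
      = Polynomial.monomial (p.2 j) (monomial (p.2 j • e j) (1 : K)) := by
    intro j
    rw [mul_pow, ← Polynomial.C_pow, monomial_pow, one_pow, Polynomial.C_mul_X_pow_eq_monomial]
  simp_rw [h]
  have h2 : ∀ s : Finset (Fin m), ∏ j ∈ s, Polynomial.monomial (p.2 j)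
      (monomial (p.2 j • e j) (1 : K))
      = Polynomial.monomial (∑ j ∈ s, p.2 j) (monomial (∑ j ∈ s, p.2 j • e j) (1 : K)) := by
    intro s
    classical
    induction s using Finset.induction_on with
    | empty => simp [Polynomial.monomial_zero_left]
    | insert a s ha ih =>
      rw [Finset.prod_insert ha, ih, Finset.sum_insert ha, Finset.sum_insert ha,
        Polynomial.monomial_mul_monomial, monomial_mul, one_mul]
  rw [h2, Polynomial.algebraMap_eq, Polynomial.C_mul_monomial, monomial_mul, one_mul, img]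

lemma img_eq_of_reesMap (e : Fin m → (Fin n →₀ ℕ)) (p q : Mon n m)
    (h : reesMap (fun j => monomial (e j) (1 : K)) (mono K p)
      = reesMap (fun j => monomial (e j) (1 : K)) (mono K q)) : img e p = img e q := by
  rw [reesMap_mono, reesMap_mono] at h
  have h1 : (img e p).2 = (img e q).2 := by
    by_contra hne
    have := congrArg (fun P => Polynomial.coeff P (img e p).2) h
    simp only [Polynomial.coeff_monomial, if_true, if_neg (Ne.symm hne)] at this
    exact one_ne_zero (monomial_eq_zero.mp this)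
  rw [h1] at h
  have h2 := Polynomial.monomial_injective _ h
  exact Prod.ext (monomial_left_injective one_ne_zero h2) h1

/-- Normal forms: if every monomial is congruent modulo `J'` to an irreducible one, and
irreducible monomials are separated by `φ`, then `ker φ ≤ J'`. -/
lemma ker_le (e : Fin m → (Fin n →₀ ℕ))
    (J' : Ideal (MvPolynomial (Fin m) (MvPolynomial (Fin n) K)))
    (Irr : Mon n m → Prop)
    (hJ : J' ≤ RingHom.ker (reesMap (fun j => monomial (e j) (1 : K))))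
    (h1 : ∀ p, ∃ q, Irr q ∧ mono K p - mono K q ∈ J')
    (h2 : ∀ p q, Irr p → Irr q → img e p = img e q → p = q) :
    RingHom.ker (reesMap (fun j => monomial (e j) (1 : K))) ≤ J' := by
  classical
  let V := MvPolynomial (Fin m) (MvPolynomial (Fin n) K) ⧸ J'
  let σ : (Fin n →₀ ℕ) → ℕ → V := fun c d =>
    if h : ∃ q, Irr q ∧ img e q = (c, d) then Ideal.Quotient.mk J' (mono K h.choose) else 0
  let s : Polynomial (MvPolynomial (Fin n) K) →ₗ[K] V :=
    Polynomial.lsum fun d => (MvPolynomial.basisMonomials (Fin n) K).constr K fun c => σ c d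
  have hs : ∀ c d, s (Polynomial.monomial d (monomial c 1)) = σ c d := by
    intro c d
    have : (MvPolynomial.basisMonomials (Fin n) K).constr K (fun c => σ c d)
        ((MvPolynomial.basisMonomials (Fin n) K) c) = σ c d := Module.Basis.constr_basis _ _ _ _
    rw [MvPolynomial.coe_basisMonomials] at this
    simp only [s, Polynomial.lsum_apply]
    rw [Polynomial.sum_monomial_index _ _ (by simp)]
    exact this
  have hσ : ∀ q, Irr q → σ (img e q).1 (img e q).2 = Ideal.Quotient.mk J' (mono K q) := by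
    intro q hq
    have hex : ∃ q', Irr q' ∧ img e q' = ((img e q).1, (img e q).2) := ⟨q, hq, rfl⟩
    have : hex.choose = q := h2 _ _ hex.choose_spec.1 hq hex.choose_spec.2
    simp only [σ]
    rw [dif_pos hex, this]
  have hmono : ∀ p, s (reesMap (fun j => monomial (e j) (1 : K)) (mono K p))
      = Ideal.Quotient.mk J' (mono K p) := by
    intro p
    obtain ⟨q, hq, hpq⟩ := h1 p
    have e1 : reesMap (fun j => monomial (e j) (1 : K)) (mono K p)
        = reesMap (fun j => monomial (e j) (1 : K)) (mono K q) := by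
      have := hJ hpq
      rw [RingHom.mem_ker, map_sub, sub_eq_zero] at this
      exact this
    rw [e1, reesMap_mono, hs, hσ q hq]
    exact (Ideal.Quotient.eq.mpr hpq).symm
  have hall : ∀ P, s (reesMap (fun j => monomial (e j) (1 : K)) P)
      = Ideal.Quotient.mk J' P := by
    intro P
    induction P using MvPolynomial.induction_on' with
    | add p q hp hq => rw [map_add, map_add, map_add, hp, hq]
    | monomial u a =>
      induction a using MvPolynomial.induction_on' with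
      | add p q hp hq => rw [map_add, map_add, map_add, map_add, hp, hq]
      | monomial v c =>
        have e1 : monomial u (monomial v c) = c • mono K ((v, u) : Mon n m) := by
          rw [mono]
          simp only [MvPolynomial.smul_monomial]
          simp
        have e2 : reesMap (fun j => monomial (e j) (1 : K)) (c • mono K ((v, u) : Mon n m))
            = c • reesMap (fun j => monomial (e j) (1 : K)) (mono K ((v, u) : Mon n m)) :=
          (reesMap (fun j => monomial (e j) (1 : K))).toLinearMap.map_smul_of_tower c _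
        have e3 : Ideal.Quotient.mk J' (c • mono K ((v, u) : Mon n m))
            = c • Ideal.Quotient.mk J' (mono K ((v, u) : Mon n m)) :=
          map_smul (Ideal.Quotient.mkₐ K J') c _
        rw [e1, e2, e3, map_smul, hmono]
  intro P hP
  rw [RingHom.mem_ker] at hP
  have := hall P
  rw [hP, map_zero] at this
  exact Ideal.Quotient.eq_zero_iff_mem.mp this.symm

/-- Reduction by a list of rewriting rules. -/
lemma reduce (J' : Ideal (MvPolynomial (Fin m) (MvPolynomial (Fin n) K)))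
    (rules : List (Mon n m × Mon n m)) (w : Mon n m →+ ℕ)
    (hw : ∀ r ∈ rules, w r.2 < w r.1) (hmem : ∀ r ∈ rules, mono K r.1 - mono K r.2 ∈ J')
    (p : Mon n m) : ∃ q, (∀ r ∈ rules, ¬ r.1 ≤ q) ∧ mono K p - mono K q ∈ J' := by
  suffices H : ∀ N, ∀ p : Mon n m, w p < N → ∃ q, (∀ r ∈ rules, ¬ r.1 ≤ q) ∧
      mono K p - mono K q ∈ J' from H _ p (Nat.lt_succ_self _)
  intro N
  induction N with
  | zero => intro p hp; exact absurd hp (Nat.not_lt_zero _)
  | succ N ih =>
    intro p hp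
    by_cases h : ∀ r ∈ rules, ¬ r.1 ≤ p
    · exact ⟨p, h, by simp⟩
    · push Not at h
      obtain ⟨r, hr, hle⟩ := h
      obtain ⟨c, rfl⟩ : ∃ c, p = r.1 + c := ⟨p - r.1, (add_tsub_cancel_of_le hle).symm⟩
      have hlt := hw r hr
      rw [map_add] at hp
      obtain ⟨q, hq, hd⟩ := ih (r.2 + c) (by rw [map_add]; omega)
      refine ⟨q, hq, ?_⟩
      have h1 : mono K (r.1 + c) - mono K (r.2 + c) ∈ J' := by
        rw [mono_add, mono_add, ← sub_mul]
        exact Ideal.mul_mem_right _ _ (hmem r hr)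
      have := add_mem h1 hd
      simpa using this

end Normal


section Example

variable (K : Type*) [Field K]

/-- exponents of the six generators
`x₀x₁, x₀x₂x₃, x₁x₄, x₀x₃x₅, x₂x₄x₅, x₃x₄x₅`. -/
noncomputable def ex (j : Fin 6) : Fin 6 →₀ ℕ :=
  Finsupp.equivFunOnFinite.symm
    ((![![1, 1, 0, 0, 0, 0], ![1, 0, 1, 1, 0, 0], ![0, 1, 0, 0, 1, 0], ![1, 0, 0, 1, 0, 1],
      ![0, 0, 1, 0, 1, 1], ![0, 0, 0, 1, 1, 1]] : Fin 6 → Fin 6 → ℕ) j)

/-- the six generators -/
noncomputable def gen (j : Fin 6) : MvPolynomial (Fin 6) K := monomial (ex j) 1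

/-- `h = y₀y₅ - y₂y₃` -/
noncomputable def hh : MvPolynomial (Fin 6) (MvPolynomial (Fin 6) K) :=
  X 0 * X 5 - X 2 * X 3

/-- `L + (h)` -/
noncomputable def Lh : Ideal (MvPolynomial (Fin 6) (MvPolynomial (Fin 6) K)) :=
  linIdeal (gen K) ⊔ Ideal.span {hh K}

open Finsupp in
/-- the rewriting rules -/
noncomputable def rules : List (Mon 6 6 × Mon 6 6) :=
  [((0, single 0 1 + single 5 1), (0, single 2 1 + single 3 1)),
   ((single 3 1, single 4 1), (single 2 1, single 5 1)),
   ((single 0 1, single 5 1), (single 4 1, single 3 1)),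
   ((single 1 1, single 5 1), (single 3 1 + single 5 1, single 2 1)),
   ((single 1 1, single 4 1), (single 2 1 + single 5 1, single 2 1)),
   ((single 5 1, single 1 1), (single 2 1, single 3 1)),
   ((single 1 1, single 3 1), (single 3 1 + single 5 1, single 0 1)),
   ((single 0 1, single 2 1), (single 4 1, single 0 1)),
   ((single 1 1, single 1 1), (single 2 1 + single 3 1, single 0 1))]

/-- the weight -/
noncomputable def wt : Mon 6 6 →+ ℕ where
  toFun p := (10 * p.1 0 + 26 * p.1 1 + 5 * p.1 2 + 10 * p.1 3 + 16 * p.1 4 + 9 * p.1 5)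
    + (13 * p.2 0 + 23 * p.2 1 + 20 * p.2 2 + 8 * p.2 3 + 26 * p.2 4 + 27 * p.2 5)
  map_zero' := by simp
  map_add' := by
    intro p q
    simp only [Prod.fst_add, Prod.snd_add, Finsupp.add_apply]
    ring

lemma wt_rules : ∀ r ∈ rules, wt r.2 < wt r.1 := by
  intro r hr
  simp only [rules, List.mem_cons, List.not_mem_nil, or_false] at hr
  rcases hr with rfl | rfl | rfl | rfl | rfl | rfl | rfl | rfl | rfl <;>
    simp [wt]


variable {K}

lemma lin2 {n m : ℕ} (F : Fin m → MvPolynomial (Fin n) K) (i j : Fin m)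
    (a b : MvPolynomial (Fin n) K) (h : a * F i = b * F j) :
    C a * X i - C b * X j ∈ linIdeal F := by
  classical
  apply Ideal.subset_span
  refine ⟨Pi.single i a - Pi.single j b, ?_, ?_⟩
  · simp [sub_mul, Finset.sum_sub_distrib, Pi.single_apply, ite_mul, h]
  · simp [sub_mul, Finset.sum_sub_distrib, Pi.single_apply, ite_mul, apply_ite C]

lemma rule_mem (p q : Fin 6 →₀ ℕ) (i j : Fin 6) (h : p + ex i = q + ex j) :
    mono K (p, Finsupp.single i 1) - mono K (q, Finsupp.single j 1) ∈ linIdeal (gen K) := by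
  have := lin2 (gen K) i j (monomial p 1) (monomial q 1) (by
    rw [gen, gen, monomial_mul, monomial_mul, h])
  convert this using 2 <;> simp [mono, X, C_mul_monomial]

lemma linIdeal_le_ker {n m : ℕ} (F : Fin m → MvPolynomial (Fin n) K) :
    linIdeal F ≤ RingHom.ker (reesMap F) := by
  refine Ideal.span_le.mpr ?_
  rintro P ⟨a, ha, rfl⟩
  rw [SetLike.mem_coe, RingHom.mem_ker]
  have : reesMap F (∑ i, C (a i) * X i) = Polynomial.C (∑ i, a i * F i) * Polynomial.X := by
    rw [map_sum, map_sum, Finset.sum_mul]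
    refine Finset.sum_congr rfl fun i _ => ?_
    simp only [reesMap, map_mul, aeval_X]
    rw [← MvPolynomial.algebraMap_eq, AlgHom.commutes, Polynomial.algebraMap_eq]
    ring
  rw [this, ha]
  simp

lemma hh_eq : hh K = mono K ((0, Finsupp.single 0 1 + Finsupp.single 5 1) : Mon 6 6)
    - mono K ((0, Finsupp.single 2 1 + Finsupp.single 3 1) : Mon 6 6) := by
  simp [hh, mono, X, monomial_mul]

lemma hh_ker : reesMap (gen K) (hh K) = 0 := by
  have e : gen K = fun j => monomial (ex j) (1 : K) := rfl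
  rw [hh_eq, map_sub, sub_eq_zero, e, reesMap_mono, reesMap_mono]
  have : img ex ((0, Finsupp.single 0 1 + Finsupp.single 5 1) : Mon 6 6)
      = img ex ((0, Finsupp.single 2 1 + Finsupp.single 3 1) : Mon 6 6) := by
    unfold img
    refine Prod.ext ?_ ?_
    · ext k
      fin_cases k <;> simp [Fin.sum_univ_succ, ex, Finsupp.single_apply]
    · simp [Fin.sum_univ_succ, Finsupp.single_apply]
  rw [this]

lemma Lh_le : Lh K ≤ RingHom.ker (reesMap (gen K)) := by
  refine sup_le (linIdeal_le_ker _) ?_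
  rw [Ideal.span_singleton_le_iff_mem, RingHom.mem_ker]
  exact hh_ker

lemma rules_mem : ∀ r ∈ rules, mono K r.1 - mono K r.2 ∈ Lh K := by
  intro r hr
  simp only [rules, List.mem_cons, List.not_mem_nil, or_false] at hr
  rcases hr with rfl | rfl | rfl | rfl | rfl | rfl | rfl | rfl | rfl
  · rw [← hh_eq]
    exact Ideal.mem_sup_right (Ideal.subset_span rfl)
  all_goals
    refine Ideal.mem_sup_left (rule_mem _ _ _ _ ?_)
    ext k
    fin_cases k <;> simp [ex]

lemma arith (a0 a1 a2 a3 a4 a5 c0 c1 c2 c3 c4 c5 b0 b1 b2 b3 b4 b5 d0 d1 d2 d3 d4 d5 : ℕ)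
   (p1 : c0 = 0 ∨ c5 = 0)
(p2 : a3 = 0 ∨ c4 = 0)
(p3 : a0 = 0 ∨ c5 = 0)
(p4 : a1 = 0 ∨ c5 = 0)
(p5 : a1 = 0 ∨ c4 = 0)
(p6 : a5 = 0 ∨ c1 = 0)
(p7 : a1 = 0 ∨ c3 = 0)
(p8 : a0 = 0 ∨ c2 = 0)
(p9 : a1 = 0 ∨ c1 = 0)
(q1 : d0 = 0 ∨ d5 = 0)
(q2 : b3 = 0 ∨ d4 = 0)
(q3 : b0 = 0 ∨ d5 = 0)
(q4 : b1 = 0 ∨ d5 = 0)
(q5 : b1 = 0 ∨ d4 = 0)
(q6 : b5 = 0 ∨ d1 = 0)
(q7 : b1 = 0 ∨ d3 = 0)
(q8 : b0 = 0 ∨ d2 = 0)
(q9 : b1 = 0 ∨ d1 = 0)
(hd : c0 + (c1 + (c2 + (c3 + (c4 + c5)))) = d0 + (d1 + (d2 + (d3 + (d4 + d5)))))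
(e0 : a0 + (c0 + (c1 + c3)) = b0 + (d0 + (d1 + d3)))
(e1 : a1 + (c0 + c2) = b1 + (d0 + d2))
(e2 : a2 + (c1 + c4) = b2 + (d1 + d4))
(e3 : a3 + (c1 + (c3 + c5)) = b3 + (d1 + (d3 + d5)))
(e4 : a4 + (c2 + (c4 + c5)) = b4 + (d2 + (d4 + d5)))
(e5 : a5 + (c3 + (c4 + c5)) = b5 + (d3 + (d4 + d5))) :
  (a0 = b0 ∧ a1 = b1 ∧ a2 = b2 ∧ a3 = b3 ∧ a4 = b4 ∧ a5 = b5) ∧
  (c0 = d0 ∧ c1 = d1 ∧ c2 = d2 ∧ c3 = d3 ∧ c4 = d4 ∧ c5 = d5) := by
  have k1 : a3 + a1 + d4 = b3 + b1 + c4 := by
    clear p1 p2 p3 p4 p5 p6 p7 p8 p9 q1 q2 q3 q4 q5 q6 q7 q8 q9; omega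
  have k2 : a5 + a1 + d1 = b5 + b1 + c1 := by
    clear p1 p2 p3 p4 p5 p6 p7 p8 p9 q1 q2 q3 q4 q5 q6 q7 q8 q9; omega
  have h4 : c4 = d4 := by
    clear p1 p3 p4 p6 p7 p8 p9 q1 q3 q4 q6 q7 q8 q9 hd e0 e1 e2 e3 e4 e5 k2; omega
  have h1 : c1 = d1 := by
    clear p1 p2 p3 p4 p5 p7 p8 q1 q2 q3 q4 q5 q7 q8 hd e0 e1 e2 e3 e4 e5 k1; omega
  subst h4 h1
  have k3 : a0 + d2 + d5 = b0 + c2 + c5 := by
    clear p1 p2 p3 p4 p5 p6 p7 p8 p9 q1 q2 q3 q4 q5 q6 q7 q8 q9; omega
  have h5 : c5 = d5 := by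
    clear p2 p5 p6 p7 p9 q2 q5 q6 q7 q9 hd e0 e2 e3 e4 e5 k1 k2; omega
  subst h5
  have h2 : c2 = d2 := by
    clear p1 p2 p3 p4 p5 p6 p7 p9 q1 q2 q3 q4 q5 q6 q7 q9 hd e0 e1 e2 e3 e4 e5 k1 k2; omega
  subst h2
  have k4 : a1 + d3 = b1 + c3 := by
    clear p1 p2 p3 p4 p5 p6 p7 p8 p9 q1 q2 q3 q4 q5 q6 q7 q8 q9; omega
  have h3 : c3 = d3 := by
    clear p1 p2 p3 p4 p5 p6 p8 p9 q1 q2 q3 q4 q5 q6 q8 q9 hd e0 e1 e2 e3 e4 e5 k1 k2 k3; omega
  subst h3
  clear p1 p2 p3 p4 p5 p6 p7 p8 p9 q1 q2 q3 q4 q5 q6 q7 q8 q9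
  refine ⟨⟨?_, ?_, ?_, ?_, ?_, ?_⟩, ⟨?_, ?_, ?_, ?_, ?_, ?_⟩⟩ <;> omega

lemma img_inj (p q : Mon 6 6) (hp : ∀ r ∈ rules, ¬ r.1 ≤ p) (hq : ∀ r ∈ rules, ¬ r.1 ≤ q)
    (h : img ex p = img ex q) : p = q := by
  have two : ∀ (α : Fin 6 →₀ ℕ), 1 ≤ α 0 → 1 ≤ α 5 →
      (Finsupp.single 0 1 + Finsupp.single 5 1 : Fin 6 →₀ ℕ) ≤ α := by
    intro α h0 h5 i
    fin_cases i <;> simp <;> omega
  have conv : ∀ p : Mon 6 6, (∀ r ∈ rules, ¬ r.1 ≤ p) →
      (p.2 0 = 0 ∨ p.2 5 = 0) ∧ (p.1 3 = 0 ∨ p.2 4 = 0) ∧ (p.1 0 = 0 ∨ p.2 5 = 0) ∧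
      (p.1 1 = 0 ∨ p.2 5 = 0) ∧ (p.1 1 = 0 ∨ p.2 4 = 0) ∧ (p.1 5 = 0 ∨ p.2 1 = 0) ∧
      (p.1 1 = 0 ∨ p.2 3 = 0) ∧ (p.1 0 = 0 ∨ p.2 2 = 0) ∧ (p.1 1 = 0 ∨ p.2 1 = 0) := by
    intro p hp
    have gen : ∀ (k : ℕ) (i j : Fin 6),
        (rules[k]?).map Prod.fst = some (Finsupp.single i 1, Finsupp.single j 1) →
        (p.1 i = 0 ∨ p.2 j = 0) := by
      intro k i j hk
      obtain ⟨r, hr, hr1⟩ := Option.map_eq_some_iff.mp hk
      have := hp r (List.mem_of_getElem? hr)
      rw [hr1] at this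
      by_contra hcon
      push Not at hcon
      apply this
      refine Prod.mk_le_mk.mpr ⟨?_, ?_⟩
      · rw [Finsupp.single_le_iff]; omega
      · rw [Finsupp.single_le_iff]; omega
    refine ⟨?_, gen 1 3 4 rfl, gen 2 0 5 rfl, gen 3 1 5 rfl, gen 4 1 4 rfl, gen 5 5 1 rfl,
      gen 6 1 3 rfl, gen 7 0 2 rfl, gen 8 1 1 rfl⟩
    have := hp ((0, Finsupp.single 0 1 + Finsupp.single 5 1),
      (0, Finsupp.single 2 1 + Finsupp.single 3 1)) (by simp [rules])
    by_contra hcon
    push Not at hcon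
    apply this
    exact Prod.mk_le_mk.mpr ⟨zero_le, two _ (by omega) (by omega)⟩
  obtain ⟨p1, p2, p3, p4, p5, p6, p7, p8, p9⟩ := conv p hp
  obtain ⟨q1, q2, q3, q4, q5, q6, q7, q8, q9⟩ := conv q hq
  have hd := congrArg Prod.snd h
  have he := fun k => DFunLike.congr_fun (congrArg Prod.fst h) k
  have e0 := he 0
  have e1 := he 1
  have e2 := he 2
  have e3 := he 3
  have e4 := he 4
  have e5 := he 5
  simp [img, Fin.sum_univ_succ, ex] at hd e0 e1 e2 e3 e4 e5
  obtain ⟨⟨u0, u1, u2, u3, u4, u5⟩, ⟨w0, w1, w2, w3, w4, w5⟩⟩ := arith _ _ _ _ _ _ _ _ _ _ _ _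
    _ _ _ _ _ _ _ _ _ _ _ _ p1 p2 p3 p4 p5 p6 p7 p8 p9 q1 q2 q3 q4 q5 q6 q7 q8 q9
    hd e0 e1 e2 e3 e4 e5
  refine Prod.ext ?_ ?_
  · ext k; fin_cases k <;> assumption
  · ext k; fin_cases k <;> assumption

variable (K) in
lemma ker_eq : RingHom.ker (reesMap (gen K)) = Lh K :=
  le_antisymm (ker_le ex (Lh K) (fun p => ∀ r ∈ rules, ¬ r.1 ≤ p) Lh_le
    (reduce (Lh K) rules wt wt_rules rules_mem) img_inj) Lh_le

variable (K) in
lemma fiberType_gen : FiberType (gen K) := by
  unfold FiberType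
  refine le_antisymm ?_ ?_
  · rw [ker_eq]
    refine sup_le_sup_left ?_ _
    rw [Ideal.span_singleton_le_iff_mem]
    have e : hh K = MvPolynomial.map (algebraMap K (MvPolynomial (Fin 6) K))
        (X 0 * X 5 - X 2 * X 3) := by simp [hh]
    rw [e]
    apply Ideal.mem_map_of_mem
    rw [fiberKer, RingHom.mem_ker, ← MvPolynomial.aeval_map_algebraMap
      (MvPolynomial (Fin 6) K), ← e]
    exact hh_ker
  · refine sup_le (linIdeal_le_ker _) ?_
    rw [Ideal.map_le_iff_le_comap]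
    intro P hP
    rw [Ideal.mem_comap, RingHom.mem_ker]
    rw [fiberKer, RingHom.mem_ker, ← MvPolynomial.aeval_map_algebraMap
      (MvPolynomial (Fin 6) K)] at hP
    exact hP

lemma sq_mem : (X 2 ^ 2 : MvPolynomial (Fin 6) K) ∈ conductor (gen K) := by
  intro P hP
  rw [ker_eq] at hP
  obtain ⟨l, hl, z, hz, rfl⟩ := Submodule.mem_sup.mp hP
  obtain ⟨q, rfl⟩ := Ideal.mem_span_singleton'.mp hz
  rw [mul_add]
  refine add_mem (Ideal.mul_mem_left _ _ hl) ?_
  have A : ∀ (a b : MvPolynomial (Fin 6) K) (i j : Fin 6), a * gen K i = b * gen K j →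
      C a * X i - C b * X j ∈ linIdeal (gen K) := fun a b i j h => lin2 (gen K) i j a b h
  have hX : ∀ i : Fin 6, (X i : MvPolynomial (Fin 6) K) = monomial (Finsupp.single i 1) 1 :=
    fun i => rfl
  have A1 := A (X 2) (X 3) 5 4 (by
    rw [gen, gen, hX, hX, monomial_mul, monomial_mul]
    congr 2
    ext k; fin_cases k <;> simp [ex])
  have A2 := A (X 2 * X 3) (X 1) 0 1 (by
    rw [gen, gen, hX, hX, hX, monomial_mul, monomial_mul, monomial_mul]
    congr 2
    · ext k; fin_cases k <;> simp [ex]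
    · simp)
  have A3 := A (X 1) (X 2 * X 5) 4 2 (by
    rw [gen, gen, hX, hX, hX, monomial_mul, monomial_mul, monomial_mul]
    congr 2
    · ext k; fin_cases k <;> simp [ex]
    · simp)
  have A4 := A (X 5) (X 2) 1 3 (by
    rw [gen, gen, hX, hX, monomial_mul, monomial_mul]
    congr 2
    ext k; fin_cases k <;> simp [ex])
  have e : C (X 2 ^ 2) * (q * hh K) = q * (C (X 2) * X 0 * (C (X 2) * X 5 - C (X 3) * X 4)
      + X 4 * (C (X 2 * X 3) * X 0 - C (X 1) * X 1) + X 1 * (C (X 1) * X 4 - C (X 2 * X 5) * X 2)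
      + C (X 2) * X 2 * (C (X 5) * X 1 - C (X 2) * X 3)) := by
    rw [hh]
    simp only [map_mul, map_pow]
    ring
  rw [e]
  exact Ideal.mul_mem_left _ _ (add_mem (add_mem (add_mem (Ideal.mul_mem_left _ _ A1)
    (Ideal.mul_mem_left _ _ A2)) (Ideal.mul_mem_left _ _ A3)) (Ideal.mul_mem_left _ _ A4))

/-- coefficient matrix of the generators -/
def E : Fin 6 → Fin 6 → ℕ :=
  ![![1, 1, 0, 0, 0, 0], ![1, 0, 1, 1, 0, 0], ![0, 1, 0, 0, 1, 0], ![1, 0, 0, 1, 0, 1],
      ![0, 0, 1, 0, 1, 1], ![0, 0, 0, 1, 1, 1]]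

lemma syz_coeff (a : Fin 6 → MvPolynomial (Fin 6) K) (h : ∑ i, a i * gen K i = 0)
    (g : Fin 6 → ℕ) :
    ∑ i, (if ∀ k, E i k ≤ g k then
      coeff (Finsupp.equivFunOnFinite.symm fun k => g k - E i k) (a i) else 0) = 0 := by
  have h2 := congrArg (coeff (Finsupp.equivFunOnFinite.symm g)) h
  rw [coeff_sum, coeff_zero] at h2
  refine Eq.trans (Finset.sum_congr rfl fun i _ => ?_) h2
  rw [gen, coeff_mul_monomial', mul_one]
  have hiff : (∀ k, E i k ≤ g k) ↔ ex i ≤ Finsupp.equivFunOnFinite.symm g := Iff.rfl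
  by_cases hc : ∀ k, E i k ≤ g k
  · rw [if_pos hc, if_pos (hiff.mp hc)]
    exact congrArg (fun m => coeff m (a i)) (Finsupp.ext fun k => rfl)
  · rw [if_neg hc, if_neg (fun h => hc (hiff.mpr h))]

lemma c0 : (Finsupp.equivFunOnFinite.symm (fun _ => 0) : Fin 6 →₀ ℕ) = 0 := by
  ext k; simp

lemma syz_facts (a : Fin 6 → MvPolynomial (Fin 6) K) (h : ∑ i, a i * gen K i = 0) :
    coeff 0 (a 5) = 0 ∧ coeff 0 (a 4) = 0 ∧ coeff 0 (a 0) = 0 ∧
    coeff (Finsupp.single 2 1) (a 0) = 0 ∧ coeff (Finsupp.single 3 1) (a 0) = 0 ∧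
    coeff (Finsupp.single 2 1) (a 5) + coeff (Finsupp.single 3 1) (a 4) = 0 := by
  have z : ∀ f : Fin 6 → ℕ, (∀ k, f k = 0) →
      (Finsupp.equivFunOnFinite.symm f : Fin 6 →₀ ℕ) = 0 := by
    intro f hf
    ext k
    simp [hf]
  have s : ∀ (f : Fin 6 → ℕ) (i : Fin 6), (∀ k, f k = if k = i then 1 else 0) →
      (Finsupp.equivFunOnFinite.symm f : Fin 6 →₀ ℕ) = Finsupp.single i 1 := by
    intro f i hf
    ext k
    rw [Finsupp.single_apply]
    simp [hf, eq_comm]
  refine ⟨?_, ?_, ?_, ?_, ?_, ?_⟩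
  · have := syz_coeff a h ![0, 0, 0, 1, 1, 1]
    rw [Fin.sum_univ_six, if_neg (by decide), if_neg (by decide), if_neg (by decide),
      if_neg (by decide), if_neg (by decide), if_pos (by decide), z _ (by decide)] at this
    simpa using this
  · have := syz_coeff a h ![0, 0, 1, 0, 1, 1]
    rw [Fin.sum_univ_six, if_neg (by decide), if_neg (by decide), if_neg (by decide),
      if_neg (by decide), if_pos (by decide), if_neg (by decide), z _ (by decide)] at this
    simpa using this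
  · have := syz_coeff a h ![1, 1, 0, 0, 0, 0]
    rw [Fin.sum_univ_six, if_pos (by decide), if_neg (by decide), if_neg (by decide),
      if_neg (by decide), if_neg (by decide), if_neg (by decide), z _ (by decide)] at this
    simpa using this
  · have := syz_coeff a h ![1, 1, 1, 0, 0, 0]
    rw [Fin.sum_univ_six, if_pos (by decide), if_neg (by decide), if_neg (by decide),
      if_neg (by decide), if_neg (by decide), if_neg (by decide), s _ 2 (by decide)] at this
    simpa using this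
  · have := syz_coeff a h ![1, 1, 0, 1, 0, 0]
    rw [Fin.sum_univ_six, if_pos (by decide), if_neg (by decide), if_neg (by decide),
      if_neg (by decide), if_neg (by decide), if_neg (by decide), s _ 3 (by decide)] at this
    simpa using this
  · have := syz_coeff a h ![0, 0, 1, 1, 1, 1]
    rw [Fin.sum_univ_six, if_neg (by decide), if_neg (by decide), if_neg (by decide),
      if_neg (by decide), if_pos (by decide), if_pos (by decide), s _ 3 (by decide),
      s _ 2 (by decide)] at this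
    rw [add_comm]
    simpa using this

lemma coeff_single_mul {n : ℕ} (i : Fin n) (p q : MvPolynomial (Fin n) K) :
    coeff (Finsupp.single i 1) (p * q)
      = coeff 0 p * coeff (Finsupp.single i 1) q + coeff (Finsupp.single i 1) p * coeff 0 q := by
  rw [coeff_mul, Finsupp.antidiagonal_single]
  simp [Finset.Nat.antidiagonal_succ]

/-- the functional detecting `x₂ h` -/
noncomputable def lam (P : MvPolynomial (Fin 6) (MvPolynomial (Fin 6) K)) : K :=
  coeff (Finsupp.single 2 1) (coeff (Finsupp.single 0 1 + Finsupp.single 5 1) P)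
    + coeff (Finsupp.single 3 1) (coeff (Finsupp.single 0 1 + Finsupp.single 4 1) P)

lemma lam_lin (Q : MvPolynomial (Fin 6) (MvPolynomial (Fin 6) K))
    (a : Fin 6 → MvPolynomial (Fin 6) K) (h : ∑ i, a i * gen K i = 0) :
    lam (Q * ∑ i, C (a i) * X i) = 0 := by
  obtain ⟨f5, f4, f0, g2, g3, g45⟩ := syz_facts a h
  have hne : ∀ (j k i : Fin 6) (P : MvPolynomial (Fin 6) (MvPolynomial (Fin 6) K)),
      i ≠ j → i ≠ k → coeff (Finsupp.single j 1 + Finsupp.single k 1) (P * X i) = 0 := by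
    intro j k i P hij hik
    rw [coeff_mul_X', if_neg]
    rw [Finsupp.mem_support_iff, not_not, Finsupp.add_apply, Finsupp.single_apply,
      Finsupp.single_apply, if_neg (Ne.symm hij), if_neg (Ne.symm hik), add_zero]
  have hP : ∀ i, Q * (C (a i) * X i) = (C (a i) * Q) * X i := fun i => by ring
  have e1 : coeff (Finsupp.single 0 1 + Finsupp.single 5 1) (Q * ∑ i, C (a i) * X i)
      = coeff (Finsupp.single 5 1) Q * a 0 + coeff (Finsupp.single 0 1) Q * a 5 := by
    rw [Finset.mul_sum, coeff_sum, Fin.sum_univ_six]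
    simp only [hP]
    rw [hne 0 5 1 _ (by decide) (by decide), hne 0 5 2 _ (by decide) (by decide),
      hne 0 5 3 _ (by decide) (by decide), hne 0 5 4 _ (by decide) (by decide), coeff_mul_X,
      add_comm (Finsupp.single 0 1 : Fin 6 →₀ ℕ), coeff_mul_X, coeff_C_mul, coeff_C_mul]
    ring
  have e2 : coeff (Finsupp.single 0 1 + Finsupp.single 4 1) (Q * ∑ i, C (a i) * X i)
      = coeff (Finsupp.single 4 1) Q * a 0 + coeff (Finsupp.single 0 1) Q * a 4 := by
    rw [Finset.mul_sum, coeff_sum, Fin.sum_univ_six]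
    simp only [hP]
    rw [hne 0 4 1 _ (by decide) (by decide), hne 0 4 2 _ (by decide) (by decide),
      hne 0 4 3 _ (by decide) (by decide), hne 0 4 5 _ (by decide) (by decide), coeff_mul_X,
      add_comm (Finsupp.single 0 1 : Fin 6 →₀ ℕ), coeff_mul_X, coeff_C_mul, coeff_C_mul]
    ring
  rw [lam, e1, e2, coeff_add, coeff_add, coeff_single_mul, coeff_single_mul, coeff_single_mul,
    coeff_single_mul, f5, f4, f0, g2, g3]
  linear_combination (coeff 0 (coeff (Finsupp.single 0 1) Q)) * g45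

lemma lam_L (P : MvPolynomial (Fin 6) (MvPolynomial (Fin 6) K)) (hP : P ∈ linIdeal (gen K)) :
    ∀ Q, lam (Q * P) = 0 := by
  have hadd : ∀ P Q : MvPolynomial (Fin 6) (MvPolynomial (Fin 6) K),
      lam (P + Q) = lam P + lam Q := by
    intro P Q
    simp only [lam, coeff_add]
    ring
  induction hP using Submodule.span_induction with
  | mem x hx =>
    obtain ⟨a, ha, rfl⟩ := hx
    intro Q
    exact lam_lin Q a ha
  | zero => intro Q; simp [lam]
  | add x y _ _ hx hy => intro Q; rw [mul_add, hadd, hx, hy, add_zero]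
  | smul c x _ hx => intro Q; rw [smul_eq_mul, ← mul_assoc]; exact hx _

lemma X_not_mem : (X 2 : MvPolynomial (Fin 6) K) ∉ conductor (gen K) := by
  intro h
  have h1 := h (hh K) (by rw [RingHom.mem_ker]; exact hh_ker)
  have h2 := lam_L _ h1 1
  rw [one_mul, lam] at h2
  have hm : hh K = monomial (Finsupp.single 0 1 + Finsupp.single 5 1) 1
      - monomial (Finsupp.single 2 1 + Finsupp.single 3 1) 1 := by
    simp [hh, X, monomial_mul]
  have n1 : (Finsupp.single 2 1 + Finsupp.single 3 1 : Fin 6 →₀ ℕ)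
      ≠ Finsupp.single 0 1 + Finsupp.single 5 1 := by
    intro h
    have := DFunLike.congr_fun h 0
    simp at this
  have n2 : (Finsupp.single 2 1 + Finsupp.single 3 1 : Fin 6 →₀ ℕ)
      ≠ Finsupp.single 0 1 + Finsupp.single 4 1 := by
    intro h
    have := DFunLike.congr_fun h 0
    simp at this
  have n3 : (Finsupp.single 0 1 + Finsupp.single 5 1 : Fin 6 →₀ ℕ)
      ≠ Finsupp.single 0 1 + Finsupp.single 4 1 := by
    intro h
    have := DFunLike.congr_fun h 5
    simp at this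
  have e1 : coeff (Finsupp.single 0 1 + Finsupp.single 5 1) (C (X 2) * hh K)
      = (X 2 : MvPolynomial (Fin 6) K) := by
    rw [coeff_C_mul, hm, coeff_sub, coeff_monomial, coeff_monomial, if_pos rfl, if_neg n1]
    ring
  have e2 : coeff (Finsupp.single 0 1 + Finsupp.single 4 1) (C (X 2) * hh K)
      = (0 : MvPolynomial (Fin 6) K) := by
    rw [coeff_C_mul, hm, coeff_sub, coeff_monomial, coeff_monomial, if_neg n3, if_neg n2]
    ring
  rw [e1, e2] at h2
  simp [X] at h2

end Example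

/-- `C` is a squarefree monomial ideal: it is generated by squarefree monomials. -/
def IsSquarefreeMonomialIdeal {K : Type*} [Field K] {n : ℕ}
    (I : Ideal (MvPolynomial (Fin n) K)) : Prop :=
  ∃ S : Set (MvPolynomial (Fin n) K), (∀ f ∈ S, IsSquarefreeMonomial f) ∧ I = Ideal.span S

/-- A squarefree monomial ideal containing `x_i ^ 2` contains `x_i`. -/
lemma mem_of_sq_mem {K : Type*} [Field K] {n : ℕ} (I : Ideal (MvPolynomial (Fin n) K))
    (hI : IsSquarefreeMonomialIdeal I) (i : Fin n) (h : (X i : MvPolynomial (Fin n) K) ^ 2 ∈ I) :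
    (X i : MvPolynomial (Fin n) K) ∈ I := by
  obtain ⟨S, hS, rfl⟩ := hI
  have hS' : S = (fun e => monomial e (1 : K)) '' {e | monomial e (1 : K) ∈ S} := by
    ext f
    constructor
    · intro hf
      obtain ⟨e, -, rfl⟩ := hS f hf
      exact ⟨e, hf, rfl⟩
    · rintro ⟨e, he, rfl⟩
      exact he
  rw [hS', mem_ideal_span_monomial_image] at h
  have hsupp : Finsupp.single i 2 ∈ ((X i : MvPolynomial (Fin n) K) ^ 2).support := by
    rw [support_X_pow]
    simp
  obtain ⟨e, he, hle⟩ := h _ hsupp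
  rw [hS', mem_ideal_span_monomial_image]
  intro xi hxi
  rw [support_X, Finset.mem_singleton] at hxi
  subst hxi
  refine ⟨e, he, ?_⟩
  obtain ⟨e', he', hee⟩ := hS _ he
  have : e = e' := monomial_left_injective one_ne_zero hee
  subst this
  intro j
  by_cases hj : j = i
  · subst hj; simpa using he' j
  · have := hle j
    rw [Finsupp.single_apply, if_neg (Ne.symm hj)] at this ⊢
    exact this

/-- **Disproof of Q1 of MP_75e24b_ag.**  For every field `K` there is a squarefree monomial ideal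
`I = (F 0, …, F 5)` of `K[x_0, …, x_5]` of fiber type with `x_2 ^ 2 ∈ C(I)` and `x_2 ∉ C(I)`;
so `C(I)` is not a squarefree monomial ideal. -/
theorem result (K : Type*) [Field K] :
    ∃ F : Fin 6 → MvPolynomial (Fin 6) K, (∀ j, IsSquarefreeMonomial (F j)) ∧ FiberType F ∧
      (X 2 ^ 2 : MvPolynomial (Fin 6) K) ∈ conductor F ∧
      (X 2 : MvPolynomial (Fin 6) K) ∉ conductor F ∧
      ¬ IsSquarefreeMonomialIdeal (conductor F) := by
  refine ⟨gen K, fun j => ⟨ex j, ?_, rfl⟩, fiberType_gen K, sq_mem, X_not_mem,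
    fun h => X_not_mem (mem_of_sq_mem _ h 2 sq_mem)⟩
  fin_cases j <;> intro i <;> fin_cases i <;> simp [ex]

end Pool.Agent.Results.MP_75e24b_ag.NotSquarefree
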